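import Pool.Agent.H14.Retr2

set_option autoImplicit false

namespace Pool.Agent.Results.MP_ce47b3_al.Retract

/-- The variety V of linear algebras over the rationals cut out by two multilinear identities
of degree four. -/
def InV (A : Type) [NonUnitalNonAssocRing A] : Prop :=
  (∀ a b c d : A, (a * b) * (c * d) = 0) ∧
  (∀ a b x y : A, x * (y * (a * b)) + y * (x * (a * b)) = ((a * b) * x) * y + ((a * b) * y) * x)

/-- `F` lies in V and is V-free on the set `X`. -/
def IsFree (F : Type) [NonUnitalNonAssocRing F] [Module ℚ F] (X : Type) : Prop :=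
  InV F ∧ ∃ i : X → F, ∀ (A : Type) [NonUnitalNonAssocRing A] [Module ℚ A]
    [IsScalarTower ℚ A A] [SMulCommClass ℚ A A], InV A →
      ∀ f : X → A, ∃! g : F →ₙₐ[ℚ] A, ∀ x, g (i x) = f x

theorem result : ∃ (F : Type) (_ : NonUnitalNonAssocRing F) (_ : Module ℚ F)
    (_ : IsScalarTower ℚ F F) (_ : SMulCommClass ℚ F F) (π : F →ₙₐ[ℚ] F),
    IsFree F (Fin 2) ∧ (∀ a, π (π a) = π a) ∧
      ∀ Y : Type, ¬ IsFree (NonUnitalAlgHom.range π) Y := by
  obtain ⟨φ, h1, h2⟩ := Pool.Agent.H14.Retr.main Pool.Agent.H14.Retr.free_FF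
  exact ⟨Pool.Agent.H14.Retr.FF, inferInstance, inferInstance, inferInstance, inferInstance, φ,
    ⟨Pool.Agent.H14.Retr.free_FF.1, _, Pool.Agent.H14.Retr.free_FF.2⟩, h1,
    fun Y ⟨h, j, hj⟩ => h2 Y j ⟨h, hj⟩⟩

end Pool.Agent.Results.MP_ce47b3_al.Retract
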